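import Mathlib

open Finset

namespace Pool.Agent.Blocks

variable {F : Type} [Field F] [Fintype F] [DecidableEq F]

omit [Fintype F] [DecidableEq F] in
/-- the line of direction `d` through `p` is labelled by `(d, idx d p)` -/
def idx : Option F → F × F → F
  | some m, p => p.2 - m * p.1
  | none, p => p.1

theorem idx_unique {p p' : F × F} (hne : p ≠ p') :
    (univ.filter (fun d : Option F => idx d p = idx d p')).card = 1 := by
  rw [card_eq_one]
  by_cases h1 : p.1 = p'.1
  · refine ⟨none, ?_⟩
    ext d
    rw [mem_filter, mem_singleton]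
    constructor
    · rintro ⟨-, hd⟩
      cases d with
      | none => rfl
      | some m =>
        exfalso
        apply hne
        simp only [idx, h1] at hd
        exact Prod.ext h1 (by simpa using hd)
    · rintro rfl
      exact ⟨mem_univ _, h1⟩
  · have h2 : p.1 - p'.1 ≠ 0 := sub_ne_zero.mpr h1
    refine ⟨some ((p.2 - p'.2) / (p.1 - p'.1)), ?_⟩
    ext d
    rw [mem_filter, mem_singleton]
    constructor
    · rintro ⟨-, hd⟩
      cases d with
      | none => exact absurd hd h1
      | some m =>
        simp only [idx] at hd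
        congr 1
        rw [eq_div_iff h2]
        linear_combination -hd
    · rintro rfl
      refine ⟨mem_univ _, ?_⟩
      simp only [idx]
      field_simp
      ring

theorem tangency_bound (hF : Fintype.card F = 4) (S : Finset (F × F))
    (h : ∀ p ∈ S, ∃ d : Option F, ∀ p' ∈ S, idx d p' = idx d p → p' = p) : S.card ≤ 8 := by
  classical
  choose! d hd using h
  set k : Option F × F → ℕ := fun l => (S.filter (fun p => idx l.1 p = l.2)).card with hk
  have hO : Fintype.card (Option F) = 5 := by rw [Fintype.card_option, hF]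
  have hU : Fintype.card (Option F × F) = 20 := by
    rw [Fintype.card_prod, hO, hF]
  -- the number of labels of lines through p and p'
  have hpp : ∀ p p' : F × F,
      (univ.filter (fun l : Option F × F => idx l.1 p = l.2 ∧ idx l.1 p' = l.2)).card =
      (univ.filter (fun e : Option F => idx e p = idx e p')).card := by
    intro p p'
    apply card_bij (fun l _ => l.1)
    · rintro ⟨e, c⟩ hl
      simp only [mem_filter, mem_univ, true_and] at hl ⊢
      rw [hl.1, hl.2]
    · rintro ⟨e, c⟩ hl ⟨e', c'⟩ hl' heq
      simp only [mem_filter, mem_univ, true_and] at hl hl' heq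
      subst heq
      rw [← hl.1, ← hl'.1]
    · intro e he
      simp only [mem_filter, mem_univ, true_and] at he
      exact ⟨(e, idx e p), by simp [he], rfl⟩
  have hpp1 : ∀ p : F × F,
      (univ.filter (fun l : Option F × F => idx l.1 p = l.2)).card = 5 := by
    intro p
    have := hpp p p
    simp only [and_self, filter_true] at this
    rw [this, card_univ, hO]
  have hsum : ∑ l, k l = 5 * S.card := by
    simp only [hk, card_filter]
    rw [sum_comm]
    have : ∀ p ∈ S, ∑ l : Option F × F, (if idx l.1 p = l.2 then 1 else 0) = 5 := by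
      intro p _
      rw [← card_filter, hpp1]
    rw [sum_congr rfl this, sum_const, smul_eq_mul, mul_comm]
  have hsum2 : ∑ l, (k l) ^ 2 = S.card * (S.card + 4) := by
    have e1 : ∀ l : Option F × F, (k l) ^ 2 =
        ∑ p ∈ S, ∑ p' ∈ S, (if idx l.1 p = l.2 ∧ idx l.1 p' = l.2 then 1 else 0) := by
      intro l
      rw [hk, sq]
      simp only [card_filter]
      rw [sum_mul_sum]
      apply sum_congr rfl
      intro p _
      apply sum_congr rfl
      intro p' _
      by_cases h1 : idx l.1 p = l.2 <;> by_cases h2 : idx l.1 p' = l.2 <;> simp [h1, h2]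
    rw [sum_congr rfl (fun l _ => e1 l), sum_comm]
    have e2 : ∀ p ∈ S, ∑ l : Option F × F, ∑ p' ∈ S,
        (if idx l.1 p = l.2 ∧ idx l.1 p' = l.2 then 1 else 0) = S.card + 4 := by
      intro p hp
      rw [sum_comm]
      have e3 : ∀ p' ∈ S, ∑ l : Option F × F,
          (if idx l.1 p = l.2 ∧ idx l.1 p' = l.2 then 1 else 0) =
          1 + (if p' = p then 4 else 0) := by
        intro p' _
        rw [← card_filter, hpp]
        by_cases hpe : p' = p
        · subst hpe
          simp [hF]
        · rw [idx_unique (Ne.symm hpe)]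
          simp [hpe]
      rw [sum_congr rfl e3, sum_add_distrib, sum_const, smul_eq_mul, mul_one,
        sum_ite_eq' S p]
      simp [hp]
    rw [sum_congr rfl e2, sum_const, smul_eq_mul]
  set T : Finset (Option F × F) := S.image (fun p => (d p, idx (d p) p)) with hT
  have hTcard : T.card = S.card := by
    rw [hT]
    apply card_image_of_injOn
    intro p hp q hq hpq
    simp only [Prod.mk.injEq] at hpq
    obtain ⟨h1, h2⟩ := hpq
    apply hd q hq p hp
    rw [← h1, h2, ← h1]
  have hTk : ∀ l ∈ T, k l = 1 := by
    intro l hl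
    rw [hT, mem_image] at hl
    obtain ⟨p, hp, rfl⟩ := hl
    rw [hk]
    simp only
    rw [card_eq_one]
    refine ⟨p, ?_⟩
    ext q
    rw [mem_filter, mem_singleton]
    constructor
    · rintro ⟨hq, hqe⟩
      exact hd p hp q hq hqe
    · rintro rfl
      exact ⟨hp, rfl⟩
  have hTs : ∑ l ∈ T, k l = S.card := by
    rw [sum_congr rfl hTk, sum_const, smul_eq_mul, mul_one, hTcard]
  have hTs2 : ∑ l ∈ T, (k l) ^ 2 = S.card := by
    rw [sum_congr rfl (fun l hl => by rw [hTk l hl]), sum_const, smul_eq_mul, one_pow, mul_one,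
      hTcard]
  have hc1 : ∑ l ∈ Tᶜ, k l + S.card = 5 * S.card := by
    rw [← hsum, ← hTs]; exact sum_compl_add_sum T _
  have hc2 : ∑ l ∈ Tᶜ, (k l) ^ 2 + S.card = S.card * (S.card + 4) := by
    rw [← hsum2]
    nth_rewrite 1 [← hTs2]
    exact sum_compl_add_sum T _
  have hc3 : Tᶜ.card + S.card = 20 := by
    rw [← hTcard, card_compl, hU]
    have : T.card ≤ 20 := by rw [← hU]; exact card_le_univ T
    omega
  have hcs : (∑ l ∈ Tᶜ, k l) ^ 2 ≤ Tᶜ.card * ∑ l ∈ Tᶜ, (k l) ^ 2 :=
    sq_sum_le_card_mul_sum_sq
  set s := S.card with hs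
  set a := ∑ l ∈ Tᶜ, k l with ha
  set b := ∑ l ∈ Tᶜ, (k l) ^ 2 with hb
  set c := Tᶜ.card with hc
  have ha' : a = 4 * s := by omega
  have hs20 : s ≤ 20 := by omega
  by_contra hcon
  push Not at hcon
  have hc' : c = 20 - s := by omega
  have hb' : b = s * (s + 4) - s := by omega
  rw [ha', hc', hb'] at hcs
  interval_cases s <;> omega

end Pool.Agent.Blocks
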