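import Mathlib

/-!
Definitions for the critical problem over a finite field `F` (`q = |F|`), after
problem MP_0e5d84_co.  Matroids are Mathlib matroids `Matroid α`, the minor order is Mathlib's `≤m`
and `<m` is its strict part.
-/

namespace Pool.Agent.Blocks

/-- A geometry is a simple matroid: no loops (take `x = y`) and no parallel pairs. -/
def IsGeometry {α : Type} (M : Matroid α) : Prop :=
  ∀ x ∈ M.E, ∀ y ∈ M.E, M.Indep {x, y}

/-- `v` realises `M`, a matroid of finite rank `n`, by vectors of `F ^ n`: a set of elements is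
independent in `M` exactly when the corresponding (indexed) family of vectors is linearly independent.
For a geometry this is the same as realising `M` as the point set `{⟨v e⟩ : e ∈ E(M)}` of
`PG(n-1, F)`. -/
def IsRealisation (F : Type) [Field F] {α : Type} (M : Matroid α) (n : ℕ)
    (v : α → Fin n → F) : Prop :=
  M.eRank = n ∧ ∀ I ⊆ M.E, (M.Indep I ↔ LinearIndepOn F v I)

/-- `M` belongs to `L(q)`: it is a geometry that is representable over `F`. -/
def InL (F : Type) [Field F] {α : Type} (M : Matroid α) : Prop :=
  IsGeometry M ∧ ∃ (n : ℕ) (v : α → Fin n → F), IsRealisation F M n v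

/-- `c(M; q) ≤ k`: in a realisation of `M` in `F ^ n` there are `k` linear functionals such that no
point of `M` lies in all `k` kernels, that is, some at most `k` hyperplanes of `PG(n-1, F)` have
intersection disjoint from the point set (a functional that is `0` gives no hyperplane). -/
def CritLE (F : Type) [Field F] (k : ℕ) {α : Type} (M : Matroid α) : Prop :=
  ∃ (n : ℕ) (v : α → Fin n → F), IsRealisation F M n v ∧
    ∃ f : Fin k → ((Fin n → F) →ₗ[F] F), ∀ e ∈ M.E, ∃ i, f i (v e) ≠ 0

/-- `M` is a `k`-block over `F`: a geometry representable over `F` with `c(M; q) > k`. -/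
def IsBlock (F : Type) [Field F] (k : ℕ) {α : Type} (M : Matroid α) : Prop :=
  InL F M ∧ ¬ CritLE F k M

/-- `M` is a tangential `k`-block over `F`: a `k`-block all of whose proper minors (as geometries)
have critical exponent at most `k`. -/
def IsTangentialBlock (F : Type) [Field F] (k : ℕ) {α : Type} (M : Matroid α) : Prop :=
  IsBlock F k M ∧ ∀ N : Matroid α, N <m M → IsGeometry N → CritLE F k N

/-- The flat `X` of `M` is modular: `r(X) + r(Y) = r(X ∪ Y) + r(X ∩ Y)` for every flat `Y`. -/
def IsModularFlat {α : Type} (M : Matroid α) (X : Set α) : Prop :=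
  M.IsFlat X ∧ ∀ Y : Set α, M.IsFlat Y →
    M.eRk X + M.eRk Y = M.eRk (X ∪ Y) + M.eRk (X ∩ Y)

/-- `M` is supersolvable: it has finite rank `n` and there is a chain `X 0 ⊆ X 1 ⊆ ... ⊆ X n` of
modular flats with `r(X i) = i`, that is, a maximal chain of the lattice of flats all of whose
members are modular. -/
def IsSupersolvable {α : Type} (M : Matroid α) : Prop :=
  ∃ n : ℕ, M.eRank = n ∧ ∃ X : ℕ → Set α,
    (∀ i ≤ n, IsModularFlat M (X i) ∧ M.eRk (X i) = i) ∧ ∀ i < n, X i ⊆ X (i + 1)

/-- `EX(P)`: the geometries with no minor in the (isomorphism-closed) class `P`. -/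
def InEX (P : ∀ {β : Type}, Matroid β → Prop) {α : Type} (M : Matroid α) : Prop :=
  IsGeometry M ∧ ∀ N : Matroid α, N ≤m M → ¬ P N

/-- The class `M(k; q) = EX(all tangential k-blocks over GF(q)) ∩ L(q)`. -/
def InM (F : Type) [Field F] (k : ℕ) {α : Type} (M : Matroid α) : Prop :=
  InEX (fun N => IsTangentialBlock F k N) M ∧ InL F M

/-- The class `EX(S_k(q)) ∩ L(q)`, where `S_k(q)` is the set of supersolvable tangential
`k`-blocks over `GF(q)`. -/
def InEXS (F : Type) [Field F] (k : ℕ) {α : Type} (M : Matroid α) : Prop :=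
  InEX (fun N => IsTangentialBlock F k N ∧ IsSupersolvable N) M ∧ InL F M

/-- The size function `h(C; n)`: the largest number of points of a rank-`n` member of `C`
(a supremum in `ℕ∞`). -/
noncomputable def sizeFn (C : ∀ {β : Type}, Matroid β → Prop) (n : ℕ) : ℕ∞ :=
  sSup {m : ℕ∞ | ∃ (α : Type) (M : Matroid α), C M ∧ M.eRank = n ∧ M.E.encard = m}

end Pool.Agent.Blocks
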