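import Mathlib

namespace Pool.Agent.Blocks

/-- a concrete field with four elements -/
inductive K4 : Type
  | z | o | w | u
  deriving DecidableEq

namespace K4

instance : Fintype K4 := ⟨{z, o, w, u}, by intro x; cases x <;> decide⟩

def add : K4 → K4 → K4
  | z, x => x
  | x, z => x
  | o, o => z
  | w, w => z
  | u, u => z
  | o, w => u
  | w, o => u
  | o, u => w
  | u, o => w
  | w, u => o
  | u, w => o

def mul : K4 → K4 → K4
  | z, _ => z
  | _, z => z
  | o, x => x
  | x, o => x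
  | w, w => u
  | w, u => o
  | u, w => o
  | u, u => w

def inv : K4 → K4
  | z => z
  | o => o
  | w => u
  | u => w

instance : Zero K4 := ⟨z⟩
instance : One K4 := ⟨o⟩
instance : Add K4 := ⟨add⟩
instance : Mul K4 := ⟨mul⟩
instance : Neg K4 := ⟨id⟩
instance : Inv K4 := ⟨inv⟩

instance : Field K4 where
  nsmul := nsmulRec
  zsmul := zsmulRec
  add_assoc := by decide
  zero_add := by decide
  add_zero := by decide
  add_comm := by decide
  neg_add_cancel := by decide
  left_distrib := by decide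
  right_distrib := by decide
  zero_mul := by decide
  mul_zero := by decide
  mul_assoc := by decide
  one_mul := by decide
  mul_one := by decide
  mul_comm := by decide
  exists_pair_ne := ⟨z, o, by decide⟩
  mul_inv_cancel := by decide
  inv_zero := by decide
  nnqsmul := _
  nnqsmul_def := fun _ _ => rfl
  qsmul := _
  qsmul_def := fun _ _ => rfl

theorem card : Fintype.card K4 = 4 := by decide

end K4

/-- the nine points of the Hermitian curve -/
def v4 : Fin 9 → Fin 3 → K4 := ![
  ![.z, .o, .o], ![.z, .o, .w], ![.z, .o, .u],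
  ![.o, .z, .o], ![.w, .z, .o], ![.u, .z, .o],
  ![.o, .o, .z], ![.o, .w, .z], ![.o, .u, .z]]

/-- bilinear form -/
def dot4 (x y : Fin 3 → K4) : K4 := x 0 * y 0 + x 1 * y 1 + x 2 * y 2

/-- tangent functional -/
def tan4 (a : Fin 9) : Fin 3 → K4 := fun i => v4 a i * v4 a i

/-- cross product -/
def cross4 (x y : Fin 3 → K4) : Fin 3 → K4 :=
  ![x 1 * y 2 + x 2 * y 1, x 0 * y 2 + x 2 * y 0, x 0 * y 1 + x 1 * y 0]

theorem tan4_spec : ∀ a b : Fin 9, dot4 (tan4 a) (v4 b) = 0 ↔ a = b := by decide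

theorem cross4_self : ∀ a b : Fin 9, dot4 (cross4 (v4 a) (v4 b)) (v4 a) = 0 ∧
    dot4 (cross4 (v4 a) (v4 b)) (v4 b) = 0 := by decide

theorem parallel4 : ∀ a b : Fin 9, a ≠ b → ∃ c d : Fin 9, c ≠ d ∧ ∀ e : Fin 9,
    ¬ (dot4 (cross4 (v4 a) (v4 b)) (v4 e) = 0 ∧ dot4 (cross4 (v4 c) (v4 d)) (v4 e) = 0) := by
  decide

end Pool.Agent.Blocks
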