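import Pool.Agent.Helper3_Blocks.Rep
import Pool.Agent.Helper3_Blocks.K4

open Set Submodule Module Matroid

namespace Pool.Agent.Blocks

variable {F : Type} [Field F] {α : Type} {W : Type} [AddCommGroup W] [Module F W]

theorem linIndep_aug [FiniteDimensional F W] [Finite α] (v : α → W) {I J : Set α}
    (hI : LinearIndepOn F v I)
    (hJ : LinearIndepOn F v J) (h : I.ncard < J.ncard) :
    ∃ e ∈ J, e ∉ I ∧ LinearIndepOn F v (insert e I) := by
  classical
  by_contra hcon
  push Not at hcon
  have hle : span F (v '' J) ≤ span F (v '' I) := by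
    rw [span_le]
    rintro _ ⟨e, he, rfl⟩
    by_cases heI : e ∈ I
    · exact subset_span ⟨e, heI, rfl⟩
    · by_contra h2
      exact hcon e he heI (hI.insert h2)
  have hcard : ∀ K : Set α, LinearIndepOn F v K → finrank F (span F (v '' K)) = K.ncard := by
    intro K hK
    have : Fintype K := (Set.toFinite K).fintype
    have h1 := finrank_span_eq_card (R := F) (b := fun x : K => v x) hK
    have himg : v '' K = range (fun x : K => v x) := by
      ext w; simp
    rw [← himg] at h1
    rw [h1, Set.ncard_eq_toFinset_card', Set.toFinset_card]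
  have h2 := Submodule.finrank_mono hle
  rw [hcard I hI, hcard J hJ] at h2
  omega

/-- the linear matroid of a family of vectors -/
def linMatroid (F : Type) [Field F] {W : Type} [AddCommGroup W] [Module F W]
    [FiniteDimensional F W] [Finite α] (v : α → W) : Matroid α :=
  (IndepMatroid.ofFinite (E := univ) Set.finite_univ (fun I => LinearIndepOn F v I)
    (linearIndepOn_empty F v)
    (fun _ _ hJ hIJ => hJ.mono hIJ)
    (fun _ _ hI hJ h => linIndep_aug v hI hJ h)
    (fun _ _ => subset_univ _)).matroid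

theorem linMatroid_E [FiniteDimensional F W] [Finite α] (v : α → W) :
    (linMatroid F v).E = univ := rfl

theorem linMatroid_indep [FiniteDimensional F W] [Finite α] (v : α → W) (I : Set α) :
    (linMatroid F v).Indep I ↔ LinearIndepOn F v I := Iff.rfl

theorem linMatroid_rep [FiniteDimensional F W] [Finite α] (v : α → W) :
    IsRep F (linMatroid F v) v := fun _ _ => Iff.rfl

section Hermitian

variable (σ : K4 ≃+* F)

/-- the nine points over `F` -/
def vF : Fin 9 → Fin 3 → F := fun a k => σ (v4 a k)

/-- linear functional with coefficients in `K4` -/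
def fF (x : Fin 3 → K4) : (Fin 3 → F) →ₗ[F] F where
  toFun y := σ (x 0) * y 0 + σ (x 1) * y 1 + σ (x 2) * y 2
  map_add' y y' := by simp only [Pi.add_apply]; ring
  map_smul' c y := by simp only [Pi.smul_apply, smul_eq_mul, RingHom.id_apply]; ring

theorem fF_apply (x : Fin 3 → K4) (a : Fin 9) : fF σ x (vF σ a) = σ (dot4 x (v4 a)) := by
  simp only [fF, vF, dot4, LinearMap.coe_mk, AddHom.coe_mk, map_add, map_mul]

theorem fF_eq_zero (x : Fin 3 → K4) (a : Fin 9) :
    fF σ x (vF σ a) = 0 ↔ dot4 x (v4 a) = 0 := by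
  rw [fF_apply]
  exact map_eq_zero_iff σ σ.injective

theorem tan_spec (a b : Fin 9) : fF σ (tan4 a) (vF σ b) = 0 ↔ a = b := by
  rw [fF_eq_zero]; exact tan4_spec a b

theorem vF_ne_zero (a : Fin 9) : vF σ a ≠ 0 := by
  intro h
  obtain ⟨b, hb⟩ : ∃ b : Fin 9, b ≠ a := ⟨a + 1, by clear h; revert a; decide⟩
  have h1 := (tan_spec σ b a).1 (by rw [h, map_zero])
  exact hb h1

theorem pair_indep (a b : Fin 9) : LinearIndepOn F (vF σ) {a, b} := by
  by_cases hab : a = b
  · subst hab
    rw [Set.pair_eq_singleton]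
    exact LinearIndepOn.singleton (vF_ne_zero σ a)
  · rw [LinearIndepOn.pair_iff _ hab]
    intro s t hst
    have h1 := congrArg (fF σ (tan4 a)) hst
    rw [map_add, map_smul, map_smul, map_zero, (tan_spec σ a a).2 rfl, smul_zero, zero_add,
      smul_eq_mul] at h1
    have ht : t = 0 := (mul_eq_zero.mp h1).resolve_right (fun h => hab ((tan_spec σ a b).1 h))
    have h2 := congrArg (fF σ (tan4 b)) hst
    rw [map_add, map_smul, map_smul, map_zero, (tan_spec σ b b).2 rfl, smul_zero, add_zero,
      smul_eq_mul] at h2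
    have hs : s = 0 := (mul_eq_zero.mp h2).resolve_right
      (fun h => hab ((tan_spec σ b a).1 h).symm)
    exact ⟨hs, ht⟩

/-- the matroid of the Hermitian curve in `PG(2,4)`, that is, the affine plane of order three -/
def MH : Matroid (Fin 9) := linMatroid F (vF σ)

theorem MH_geometry : IsGeometry (MH σ) := by
  intro x _ y _
  rw [MH, linMatroid_indep]
  exact pair_indep σ x y

theorem MH_rep : IsRep F (MH σ) (vF σ) := linMatroid_rep _

theorem MH_E : (MH σ).E = univ := rfl

theorem span_zero {X : Set (Fin 9)} {f : (Fin 3 → F) →ₗ[F] F} (h : ∀ c ∈ X, f (vF σ c) = 0)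
    {w : Fin 3 → F} (hw : w ∈ span F (vF σ '' X)) : f w = 0 := by
  have hle : span F (vF σ '' X) ≤ LinearMap.ker f := by
    rw [span_le]
    rintro _ ⟨c, hc, rfl⟩
    exact h c hc
  exact hle hw

theorem MH_triple : (MH σ).Indep {0, 3, 7} := by
  rw [MH, linMatroid_indep]
  apply (pair_indep σ 3 7).insert
  intro hmem
  have h1 : ∀ c ∈ ({3, 7} : Set (Fin 9)), fF σ (cross4 (v4 3) (v4 7)) (vF σ c) = 0 := by
    intro c hc
    rw [fF_eq_zero]
    rcases hc with rfl | rfl
    · exact (cross4_self 3 7).1
    · exact (cross4_self 3 7).2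
  have h2 := span_zero σ h1 hmem
  rw [fF_eq_zero] at h2
  revert h2
  decide

theorem MH_encard_le {I : Set (Fin 9)} (hI : (MH σ).Indep I) : I.encard ≤ 3 := by
  rw [MH, linMatroid_indep] at hI
  have h := hI.encard_le_toENat_rank
  simpa using h

theorem MH_rank : (MH σ).eRank = 3 := by
  apply le_antisymm
  · obtain ⟨B, hB⟩ := (MH σ).exists_isBase
    rw [← hB.encard_eq_eRank]
    exact MH_encard_le σ hB.indep
  · have h := (MH_triple σ).encard_le_eRank
    have h3 : ({0, 3, 7} : Set (Fin 9)).encard = 3 := by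
      rw [Set.encard_insert_of_notMem (by decide), Set.encard_pair (by decide)]
      norm_num
    rwa [h3] at h

theorem MH_inL : InL F (MH σ) :=
  ⟨MH_geometry σ, 3, vF σ, by rw [MH_rank]; rfl, MH_rep σ⟩

/-- every proper geometry minor has critical exponent at most one -/
theorem MH_minor (N : Matroid (Fin 9)) (hN : N ≤m MH σ) (hg : IsGeometry N) (hne : N ≠ MH σ) :
    CritLE F 1 N := by
  classical
  obtain ⟨C, D, hC, hD, hCD, rfl⟩ := hN.exists_eq_contract_delete_disjoint
  rcases C.eq_empty_or_nonempty with hC0 | ⟨c, hc⟩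
  · subst hC0
    have hD0 : D.Nonempty := by
      rw [Set.nonempty_iff_ne_empty]
      rintro rfl
      apply hne
      rw [Matroid.contract_empty, Matroid.delete_empty]
    obtain ⟨d, hd⟩ := hD0
    apply critLE_one_minor (MH_rep σ) ∅ D hC (fF σ (tan4 d)) (by simp)
    intro e he
    rw [Ne, tan_spec]
    rintro rfl
    rw [Matroid.delete_ground] at he
    exact he.2 hd
  · by_cases hCs : C = {c}
    · subst hCs
      apply critLE_one_minor (MH_rep σ) {c} D hC (fF σ (tan4 c))
      · intro e he
        rw [mem_singleton_iff] at he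
        subst he
        exact (tan_spec σ e e).2 rfl
      · intro e he
        rw [Ne, tan_spec]
        rintro rfl
        rw [Matroid.delete_ground, Matroid.contract_ground] at he
        exact he.1.2 rfl
    · -- C has two elements
      obtain ⟨c', hc', hcc'⟩ : ∃ c' ∈ C, c' ≠ c := by
        by_contra hcon
        push Not at hcon
        apply hCs
        ext x
        rw [mem_singleton_iff]
        exact ⟨fun hx => hcon x hx, fun hx => by rw [hx]; exact hc⟩
      have hpair : (MH σ).Indep {c, c'} := MH_geometry σ c trivial c' trivial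
      obtain ⟨J, hJ, hcJ⟩ := hpair.subset_isBasis_of_subset
        (by intro z hz; rcases hz with rfl | rfl <;> assumption : ({c, c'} : Set (Fin 9)) ⊆ C) hC
      have hindep : ∀ I : Set (Fin 9), (MH σ ／ C ＼ D).Indep I →
          (MH σ).Indep (I ∪ J) ∧ Disjoint C I := by
        intro I hI
        rw [Matroid.delete_indep_iff, hJ.contract_indep_iff] at hI
        exact hI.1
      have hsub : ∀ x ∈ (MH σ ／ C ＼ D).E, ∀ y ∈ (MH σ ／ C ＼ D).E, x = y := by
        intro x hx y hy
        by_contra hxy
        obtain ⟨h1, h2⟩ := hindep _ (hg x hx y hy)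
        have h3 := MH_encard_le σ h1
        have h4 : Disjoint ({x, y} : Set (Fin 9)) {c, c'} := by
          apply (h2.symm).mono_right
          intro z hz; rcases hz with rfl | rfl <;> assumption
        have h5 : (({x, y} : Set (Fin 9)) ∪ {c, c'}).encard ≤ 3 :=
          (Set.encard_le_encard (union_subset_union_right _ hcJ)).trans h3
        rw [Set.encard_union_eq h4, Set.encard_pair hxy, Set.encard_pair (Ne.symm hcc')] at h5
        have : ¬ ((2 : ℕ∞) + 2 ≤ 3) := by norm_num
        exact this h5
      rcases (MH σ ／ C ＼ D).E.eq_empty_or_nonempty with hE | ⟨x, hx⟩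
      · apply critLE_one_minor (MH_rep σ) C D hC 0
        · intro e _; rfl
        · intro e he
          rw [hE] at he
          exact absurd he (notMem_empty e)
      · have hx1 : (MH σ ／ C ＼ D).Indep {x} := by
          have := hg x hx x hx
          simpa using this
        obtain ⟨h1, h2⟩ := hindep _ hx1
        have hxJ : x ∉ J := by
          intro h
          have : x ∈ C := hJ.subset h
          exact (disjoint_left.mp h2) this rfl
        have hnot : vF σ x ∉ span F (vF σ '' C) := by
          rw [← (MH_rep σ).basis_span hJ]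
          have h3 : LinearIndepOn F (vF σ) (insert x J) := by
            rw [← Set.singleton_union]
            exact h1
          exact ((linearIndepOn_insert hxJ).1 h3).2
        obtain ⟨φ, hφ1, hφ2⟩ := Submodule.exists_le_ker_of_notMem hnot
        apply critLE_one_minor (MH_rep σ) C D hC φ
        · intro e he
          exact hφ2 (subset_span ⟨e, he, rfl⟩)
        · intro e he
          rw [hsub e he x hx]
          exact hφ1

theorem MH_not_supersolvable : ¬ IsSupersolvable (MH σ) := by
  rintro ⟨n, hn, X, hX, -⟩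
  have hn3 : n = 3 := by
    rw [MH_rank] at hn
    exact_mod_cast hn.symm
  subst hn3
  obtain ⟨⟨hflat, hmod⟩, hr⟩ := hX 2 (by norm_num)
  have hXE : X 2 ⊆ (MH σ).E := subset_univ _
  obtain ⟨I, hI⟩ := (MH σ).exists_isBasis (X 2) hXE
  have hIc : I.encard = 2 := by
    rw [hI.encard_eq_eRk, hr]; rfl
  rw [Set.encard_eq_two] at hIc
  obtain ⟨a, b, hab, rfl⟩ := hIc
  obtain ⟨c, d, hcd, hpar⟩ := parallel4 a b hab
  have hYflat : (MH σ).IsFlat ((MH σ).closure {c, d}) := (MH σ).isFlat_closure _
  have hm := hmod _ hYflat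
  have hbas : (MH σ).IsBasis {c, d} ((MH σ).closure {c, d}) :=
    (MH_geometry σ c trivial d trivial).isBasis_closure
  have hdisj : X 2 ∩ (MH σ).closure {c, d} = ∅ := by
    rw [Set.eq_empty_iff_forall_notMem]
    rintro e ⟨he1, he2⟩
    apply hpar e
    constructor
    · have h1 : vF σ e ∈ span F (vF σ '' {a, b}) := by
        rw [(MH_rep σ).basis_span hI]
        exact subset_span ⟨e, he1, rfl⟩
      rw [← fF_eq_zero σ]
      apply span_zero σ _ h1
      intro z hz
      rw [fF_eq_zero]
      rcases hz with rfl | rfl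
      · exact (cross4_self _ _).1
      · exact (cross4_self _ _).2
    · have h1 : vF σ e ∈ span F (vF σ '' {c, d}) := by
        rw [(MH_rep σ).basis_span hbas]
        exact subset_span ⟨e, he2, rfl⟩
      rw [← fF_eq_zero σ]
      apply span_zero σ _ h1
      intro z hz
      rw [fF_eq_zero]
      rcases hz with rfl | rfl
      · exact (cross4_self _ _).1
      · exact (cross4_self _ _).2
  have hY2 : (MH σ).eRk ((MH σ).closure {c, d}) = 2 := by
    rw [← hbas.encard_eq_eRk, Set.encard_pair hcd]
  have hU : (MH σ).eRk (X 2 ∪ (MH σ).closure {c, d}) ≤ 3 := by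
    rw [← MH_rank σ]; exact (MH σ).eRk_le_eRank _
  rw [hr, hY2, hdisj, Matroid.eRk_empty, add_zero] at hm
  rw [← hm] at hU
  have : ¬ (((2 : ℕ) : ℕ∞) + 2 ≤ 3) := by norm_num
  exact this hU

theorem MH_inEXS : InEXS F 1 (MH σ) := by
  refine ⟨⟨MH_geometry σ, ?_⟩, MH_inL σ⟩
  rintro N hN ⟨⟨⟨hNL, hNc⟩, -⟩, hss⟩
  by_cases hne : N = MH σ
  · subst hne
    exact MH_not_supersolvable σ hss
  · exact hNc (MH_minor σ N hN hNL.1 hne)

/-- deleting a point leaves a member of `M(1; 4)` with eight points -/
theorem MH_delete_inM : InM F 1 (MH σ ＼ {8}) := by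
  have hmin : (MH σ ＼ {8}) ≤m MH σ := ⟨∅, {8}, by rw [Matroid.contract_empty]⟩
  have hg : IsGeometry (MH σ ＼ {8}) := by
    intro x hx y hy
    rw [Matroid.delete_indep_iff]
    refine ⟨MH_geometry σ x trivial y trivial, ?_⟩
    rw [Matroid.delete_ground] at hx hy
    rw [disjoint_left]
    rintro z (rfl | rfl) hz
    · exact hx.2 hz
    · exact hy.2 hz
  refine ⟨⟨hg, ?_⟩, inL_minor (MH_inL σ) hmin hg⟩
  rintro N hN ⟨⟨hNL, hNc⟩, -⟩
  apply hNc
  apply MH_minor σ N (hN.trans hmin) hNL.1
  rintro rfl
  have h1 := hN.subset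
  rw [Matroid.delete_ground, MH_E] at h1
  exact (h1 (mem_univ (8 : Fin 9))).2 rfl

theorem MH_delete_rank : (MH σ ＼ {8}).eRank = 3 := by
  apply le_antisymm
  · obtain ⟨B, hB⟩ := (MH σ ＼ {8}).exists_isBase
    rw [← hB.encard_eq_eRank]
    exact MH_encard_le σ ((Matroid.delete_indep_iff.1 hB.indep).1)
  · have h0 : (MH σ ＼ {8}).Indep {0, 3, 7} := by
      rw [Matroid.delete_indep_iff]
      refine ⟨MH_triple σ, ?_⟩
      rw [Set.disjoint_singleton_right]
      decide
    have h := h0.encard_le_eRank
    have h3 : ({0, 3, 7} : Set (Fin 9)).encard = 3 := by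
      rw [Set.encard_insert_of_notMem (by decide), Set.encard_pair (by decide)]
      norm_num
    rwa [h3] at h

theorem MH_delete_encard : (MH σ ＼ {8}).E.encard = 8 := by
  rw [Matroid.delete_ground, MH_E]
  have h := Set.encard_sdiff_add_encard_of_subset (subset_univ ({8} : Set (Fin 9)))
  rw [Set.encard_singleton, Set.encard_univ] at h
  have h2 : (univ \ {8} : Set (Fin 9)).encard + 1 = 8 + 1 := by
    rw [h]; simp; norm_num
  exact ENat.add_left_injective_of_ne_top (n := 1) (by simp) h2

end Hermitian

theorem lower8 (F : Type) [Field F] [Fintype F] (hF : Fintype.card F = 4) :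
    ∃ (α : Type) (M : Matroid α), InM F 1 M ∧ M.eRank = 3 ∧ M.E.encard = 8 := by
  let σ : K4 ≃+* F := FiniteField.ringEquivOfCardEq (by rw [K4.card, hF])
  exact ⟨Fin 9, MH σ ＼ {8}, MH_delete_inM σ, MH_delete_rank σ, MH_delete_encard σ⟩

theorem lower (F : Type) [Field F] [Fintype F] (hF : Fintype.card F = 4) :
    ∃ (α : Type) (M : Matroid α), InEXS F 1 M ∧ M.eRank = 3 ∧ M.E.encard = 9 := by
  let σ : K4 ≃+* F := FiniteField.ringEquivOfCardEq (by rw [K4.card, hF])
  refine ⟨Fin 9, MH σ, MH_inEXS σ, MH_rank σ, ?_⟩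
  rw [MH_E]
  simp [Set.encard_univ]

end Pool.Agent.Blocks
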