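import Pool.Agent.Helper3_Blocks.Defs

open Set Submodule Module Matroid

namespace Pool.Agent.Blocks

/-- representation in an arbitrary space -/
def IsRep (F : Type) [Field F] {α W : Type} [AddCommGroup W] [Module F W] (M : Matroid α)
    (v : α → W) : Prop :=
  ∀ I ⊆ M.E, (M.Indep I ↔ LinearIndepOn F v I)

variable {F : Type} [Field F] {α : Type} {W : Type} [AddCommGroup W] [Module F W]

theorem IsRep.basis_span {M : Matroid α} {v : α → W} (h : IsRep F M v) {J C : Set α}
    (hJ : M.IsBasis J C) : span F (v '' J) = span F (v '' C) := by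
  have hC : C ⊆ M.E := hJ.subset_ground
  apply le_antisymm (span_mono (image_mono hJ.subset))
  rw [span_le]
  rintro _ ⟨x, hx, rfl⟩
  by_contra hcon
  have hlin : LinearIndepOn F v J := (h J (hJ.subset.trans hC)).1 hJ.indep
  have h2 : LinearIndepOn F v (insert x J) := hlin.insert hcon
  have h3 : M.Indep (insert x J) := (h _ (insert_subset (hC hx) (hJ.subset.trans hC))).2 h2
  have h4 : x ∈ J := hJ.mem_of_insert_indep hx h3
  exact hcon (subset_span ⟨x, h4, rfl⟩)

theorem IsRep.minor {M : Matroid α} {v : α → W} (h : IsRep F M v) (C D : Set α) (hC : C ⊆ M.E) :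
    IsRep F (M ／ C ＼ D) (mkQ (span F (v '' C)) ∘ v) := by
  intro I hI
  rw [Matroid.delete_ground, Matroid.contract_ground] at hI
  have hID : Disjoint I D := by
    rw [disjoint_left]
    intro x hx hxD
    exact (hI hx).2 hxD
  have hIC : Disjoint C I := by
    rw [disjoint_left]
    intro x hxC hx
    exact (hI hx).1.2 hxC
  have hIE : I ⊆ M.E := fun x hx => (hI hx).1.1
  obtain ⟨J, hJ⟩ := M.exists_isBasis C hC
  have hJE : J ⊆ M.E := hJ.subset.trans hC
  rw [Matroid.delete_indep_iff, hJ.contract_indep_iff]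
  have hJI : Disjoint J I := hIC.mono_left hJ.subset
  have hlin : LinearIndepOn F v J := (h J hJE).1 hJ.indep
  rw [← h.basis_span hJ, hlin.quotient_iff_union hJI, union_comm J I,
    h (I ∪ J) (union_subset hIE hJE)]
  tauto

/-- pass to a realisation in `F ^ n` -/
theorem IsRep.exists_realisation [FiniteDimensional F W] {N : Matroid α} {v : α → W}
    (h : IsRep F N v) :
    ∃ (n : ℕ) (v' : α → Fin n → F) (L : (Fin n → F) →ₗ[F] W),
      IsRealisation F N n v' ∧ Function.Injective L ∧ ∀ e ∈ N.E, L (v' e) = v e := by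
  classical
  set W' := span F (v '' N.E) with hW'
  let e : W' ≃ₗ[F] (Fin (finrank F W') → F) := (Module.finBasis F W').equivFun
  let v' : α → Fin (finrank F W') → F := fun x =>
    if hx : x ∈ N.E then e ⟨v x, subset_span ⟨x, hx, rfl⟩⟩ else 0
  let L : (Fin (finrank F W') → F) →ₗ[F] W := W'.subtype ∘ₗ e.symm.toLinearMap
  have hL : Function.Injective L := by
    intro x y hxy
    have : (e.symm x) = (e.symm y) := Subtype.ext hxy
    exact e.symm.injective this
  have hLv : ∀ x ∈ N.E, L (v' x) = v x := by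
    intro x hx
    simp [L, v', hx]
  have hrep : ∀ I ⊆ N.E, (N.Indep I ↔ LinearIndepOn F v' I) := by
    intro I hI
    rw [h I hI]
    have h1 : LinearIndepOn F v I ↔ LinearIndepOn F (L ∘ v') I := by
      apply linearIndepOn_congr
      intro x hx
      exact (hLv x (hI hx)).symm
    rw [h1]
    exact L.linearIndepOn_iff_of_injOn (hL.injOn)
  refine ⟨finrank F W', v', L, ⟨?_, hrep⟩, hL, hLv⟩
  -- rank
  obtain ⟨B, hB⟩ := N.exists_isBase
  have hBE := hB.subset_ground
  have hlin : LinearIndepOn F v B := (h B hBE).1 hB.indep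
  have hspan := h.basis_span hB.isBasis_ground
  rw [← hB.encard_eq_eRank]
  have hfin : B.Finite := by
    have := LinearIndependent.finite_of_isNoetherian hlin
    exact Set.toFinite B
  have : Fintype B := hfin.fintype
  have hcard := finrank_span_eq_card (R := F) (b := fun x : B => v x) hlin
  have himg : v '' B = range (fun x : B => v x) := by
    ext w; simp
  rw [← himg, hspan] at hcard
  rw [hW', hcard, Set.encard_eq_coe_toFinset_card, Set.toFinset_card]

theorem critLE_one_of_rep [FiniteDimensional F W] {N : Matroid α} {v : α → W}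
    (h : IsRep F N v) (φ : W →ₗ[F] F) (hφ : ∀ e ∈ N.E, φ (v e) ≠ 0) : CritLE F 1 N := by
  obtain ⟨n, v', L, hv', hL, hLv⟩ := h.exists_realisation
  refine ⟨n, v', hv', fun _ => φ ∘ₗ L, ?_⟩
  intro e he
  refine ⟨0, ?_⟩
  rw [LinearMap.comp_apply, hLv e he]
  exact hφ e he

/-- Criterion for minors: a functional that vanishes on `C` and not on the points of the minor. -/
theorem critLE_one_minor [FiniteDimensional F W] {M : Matroid α} {v : α → W}
    (h : IsRep F M v) (C D : Set α) (hC : C ⊆ M.E) (φ : W →ₗ[F] F) (h0 : ∀ c ∈ C, φ (v c) = 0)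
    (hφ : ∀ e ∈ (M ／ C ＼ D).E, φ (v e) ≠ 0) : CritLE F 1 (M ／ C ＼ D) := by
  have hle : span F (v '' C) ≤ LinearMap.ker φ := by
    rw [span_le]
    rintro _ ⟨c, hc, rfl⟩
    exact h0 c hc
  apply critLE_one_of_rep (h.minor C D hC) ((span F (v '' C)).liftQ φ hle)
  intro e he
  simpa using hφ e he

theorem inL_minor {M N : Matroid α} (hM : InL F M) (hN : N ≤m M) (hg : IsGeometry N) :
    InL F N := by
  obtain ⟨C, D, hC, hD, hCD, rfl⟩ := hN.exists_eq_contract_delete_disjoint
  obtain ⟨-, n, v, hn, hv⟩ := hM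
  refine ⟨hg, ?_⟩
  have hrep : IsRep F M v := hv
  obtain ⟨n', v', L, hv', -, -⟩ := (hrep.minor C D hC).exists_realisation
  exact ⟨n', v', hv'⟩

/-- If a geometry in `L(q)` with finite ground set has no tangential 1-block minor, then
every geometry minor has critical exponent at most 1. -/
theorem critLE_of_no_tangential (k : ℕ) {M : Matroid α} (hM : InL F M) (hfin : M.E.Finite)
    (hno : ∀ N : Matroid α, N ≤m M → ¬ IsTangentialBlock F k N) :
    ∀ N : Matroid α, N ≤m M → IsGeometry N → CritLE F k N := by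
  have key : ∀ m : ℕ, ∀ N : Matroid α, N.E.ncard = m → N ≤m M → IsGeometry N → CritLE F k N := by
    intro m
    induction m using Nat.strong_induction_on with
    | _ m ih =>
      intro N hm hN hg
      by_contra hcon
      apply hno N hN
      refine ⟨⟨inL_minor hM hN hg, hcon⟩, ?_⟩
      intro N' hN' hg'
      refine ih N'.E.ncard ?_ N' rfl (hN'.isMinor.trans hN) hg'
      rw [← hm]
      exact Set.ncard_lt_ncard hN'.ssubset (hfin.subset hN.subset)
  intro N hN hg
  exact key _ N rfl hN hg

end Pool.Agent.Blocks
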