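import Pool.Agent.Helper3_Blocks.Rep
import Pool.Agent.Helper3_Blocks.Count

open Set Submodule Module Matroid

namespace Pool.Agent.Blocks

variable {F : Type} [Field F] {α : Type}

theorem finite_of_inL [Finite F] {M : Matroid α} (h : InL F M) : M.E.Finite := by
  obtain ⟨hg, n, v, hn, hv⟩ := h
  have hinj : InjOn v M.E := by
    intro x hx y hy hxy
    by_contra hne
    have h1 := (hv {x, y} (by intro z hz; rcases hz with rfl | rfl <;> assumption)).1
      (hg x hx y hy)
    exact hne (h1.injOn (by simp) (by simp) hxy)
  exact Set.Finite.of_finite_image (Set.toFinite _) hinj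

/-- two directions determine the point -/
theorem idx_two [Fintype F] [DecidableEq F] {d d' : Option F} (hdd : d ≠ d') {p p' : F × F}
    (h1 : idx d p = idx d p') (h2 : idx d' p = idx d' p') : p = p' := by
  by_contra hne
  have h3 := idx_unique hne
  rw [Finset.card_eq_one] at h3
  obtain ⟨a, ha⟩ := h3
  have m1 : d ∈ ({a} : Finset (Option F)) := by rw [← ha]; simp [h1]
  have m2 : d' ∈ ({a} : Finset (Option F)) := by rw [← ha]; simp [h2]
  rw [Finset.mem_singleton] at m1 m2
  exact hdd (m1.trans m2.symm)

theorem pair_dep_false {W : Type} [AddCommGroup W] [Module F W] {M : Matroid α} {v : α → W}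
    (hg : IsGeometry M) (hv : IsRep F M v) {x y : α} (hx : x ∈ M.E) (hy : y ∈ M.E) (hne : x ≠ y)
    {a b : F} (hab : a • v x + b • v y = 0) : a = 0 ∧ b = 0 := by
  have h1 := (hv {x, y} (by intro z hz; rcases hz with rfl | rfl <;> assumption)).1
    (hg x hx y hy)
  rw [LinearIndepOn.pair_iff v hne] at h1
  exact h1 a b hab

/-- coordinates -/
theorem exists_coords (φ : (Fin 3 → F) →ₗ[F] F) (hφ : φ ≠ 0) :
    ∃ i j : Fin 3, ∀ x : Fin 3 → F, x i = 0 → x j = 0 → φ x = 0 → x = 0 := by
  classical
  have hexp : ∀ x : Fin 3 → F, φ x = x 0 * φ (Pi.single 0 1) + x 1 * φ (Pi.single 1 1) +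
      x 2 * φ (Pi.single 2 1) := by
    intro x
    have hx : x = x 0 • (Pi.single 0 (1 : F) : Fin 3 → F) + x 1 • (Pi.single 1 (1 : F)) +
        x 2 • (Pi.single 2 (1 : F)) := by
      ext k
      fin_cases k <;> simp
    conv_lhs => rw [hx]
    simp only [map_add, map_smul, smul_eq_mul]
  by_cases h0 : φ (Pi.single 0 1) = 0
  · by_cases h1 : φ (Pi.single 1 1) = 0
    · have h2 : φ (Pi.single 2 1) ≠ 0 := by
        intro h2
        apply hφ
        ext k
        fin_cases k
        · simpa using h0
        · simpa using h1
        · simpa using h2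
      refine ⟨0, 1, fun x hx0 hx1 hx => ?_⟩
      rw [hexp x, hx0, hx1, zero_mul, zero_mul, zero_add, zero_add] at hx
      have hx2 : x 2 = 0 := (mul_eq_zero.mp hx).resolve_right h2
      ext k
      fin_cases k
      · exact hx0
      · exact hx1
      · exact hx2
    · refine ⟨0, 2, fun x hx0 hx2 hx => ?_⟩
      rw [hexp x, hx0, hx2, zero_mul, zero_mul, zero_add, add_zero] at hx
      have hx1 : x 1 = 0 := (mul_eq_zero.mp hx).resolve_right h1
      ext k
      fin_cases k
      · exact hx0
      · exact hx1
      · exact hx2
  · refine ⟨1, 2, fun x hx1 hx2 hx => ?_⟩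
    rw [hexp x, hx1, hx2, zero_mul, zero_mul, add_zero, add_zero] at hx
    have hx0 : x 0 = 0 := (mul_eq_zero.mp hx).resolve_right h0
    ext k
    fin_cases k
    · exact hx0
    · exact hx1
    · exact hx2

/-- A geometry over `GF(4)` of rank at most two with critical exponent at most one has at most
four points. -/
theorem rank_two_bound [Fintype F] (hF : Fintype.card F = 4) {N : Matroid α} (hg : IsGeometry N)
    (hc : CritLE F 1 N) (hr : N.eRank ≤ 2) (x : Option F → α) (hx : ∀ d, x d ∈ N.E)
    (hinj : Function.Injective x) : False := by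
  classical
  obtain ⟨n, v, ⟨hn, hv⟩, f, hf⟩ := hc
  have hrep : IsRep F N v := hv
  set φ := f 0 with hφdef
  have hφ : ∀ e ∈ N.E, φ (v e) ≠ 0 := by
    intro e he
    obtain ⟨i, hi⟩ := hf e he
    have : i = 0 := Subsingleton.elim _ _
    rw [this] at hi
    exact hi
  have hn2 : n ≤ 2 := by
    rw [hn] at hr
    exact_mod_cast hr
  -- the kernel has at most four elements
  have hφ0 : φ ≠ 0 := by
    intro h0
    apply hφ (x none) (hx none)
    rw [h0]; rfl
  have hsurj : LinearMap.range φ = ⊤ := by
    rw [LinearMap.range_eq_top]
    exact LinearMap.surjective hφ0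
  have hrk := LinearMap.finrank_range_add_finrank_ker φ
  rw [hsurj, finrank_top, finrank_self, finrank_pi, Fintype.card_fin] at hrk
  have hker : finrank F (LinearMap.ker φ) ≤ 1 := by omega
  have hcard : Fintype.card (LinearMap.ker φ) ≤ 4 := by
    rw [Module.card_eq_pow_finrank (K := F) (V := LinearMap.ker φ), hF]
    calc 4 ^ finrank F (LinearMap.ker φ) ≤ 4 ^ 1 := Nat.pow_le_pow_right (by norm_num) hker
      _ = 4 := by norm_num
  let g : Option F → LinearMap.ker φ := fun d =>
    ⟨(φ (v (x d)))⁻¹ • v (x d) - (φ (v (x none)))⁻¹ • v (x none), by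
      rw [LinearMap.mem_ker, map_sub, map_smul, map_smul, smul_eq_mul, smul_eq_mul,
        inv_mul_cancel₀ (hφ _ (hx d)), inv_mul_cancel₀ (hφ _ (hx none)), sub_self]⟩
  have hg_inj : Function.Injective g := by
    intro d d' hdd
    by_contra hne
    have h1 : (φ (v (x d)))⁻¹ • v (x d) - (φ (v (x none)))⁻¹ • v (x none) =
        (φ (v (x d')))⁻¹ • v (x d') - (φ (v (x none)))⁻¹ • v (x none) :=
      congrArg Subtype.val hdd
    have h2 : (φ (v (x d)))⁻¹ • v (x d) + (-(φ (v (x d')))⁻¹) • v (x d') = 0 := by
      rw [sub_left_inj] at h1
      rw [h1, neg_smul, add_neg_cancel]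
    have h3 := pair_dep_false hg hrep (hx d) (hx d') (fun h => hne (hinj h)) h2
    exact inv_ne_zero (hφ _ (hx d)) h3.1
  have h5 := Fintype.card_le_of_injective g hg_inj
  rw [Fintype.card_option, hF] at h5
  omega

theorem upper [Fintype F] (hF : Fintype.card F = 4) (M : Matroid α) (hM : InM F 1 M)
    (hr : M.eRank = 3) : M.E.encard ≤ 8 := by
  classical
  obtain ⟨⟨hg, hno⟩, hL⟩ := hM
  have hfin := finite_of_inL hL
  have hcrit := critLE_of_no_tangential 1 hL hfin hno
  obtain ⟨n, v, ⟨hn, hv⟩, f, hf⟩ := hcrit M Matroid.IsMinor.refl hg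
  have hn3 : n = 3 := by
    rw [hr] at hn
    exact_mod_cast hn.symm
  subst hn3
  have hrep : IsRep F M v := hv
  set φ := f 0 with hφdef
  have hφ : ∀ e ∈ M.E, φ (v e) ≠ 0 := by
    intro e he
    obtain ⟨i, hi⟩ := hf e he
    have : i = 0 := Subsingleton.elim _ _
    rw [this] at hi
    exact hi
  have hne : M.E.Nonempty := by
    by_contra hcon
    rw [Set.not_nonempty_iff_eq_empty] at hcon
    have := M.eRank_le_encard_ground
    rw [hcon, hr] at this
    simp at this
  obtain ⟨e0, he0⟩ := hne
  have hφ0 : φ ≠ 0 := by
    intro h0
    apply hφ e0 he0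
    rw [h0]; rfl
  obtain ⟨i, j, hij⟩ := exists_coords φ hφ0
  set c : α → F × F := fun e => (v e i / φ (v e), v e j / φ (v e)) with hc
  have hcinj : InjOn c M.E := by
    intro x hx y hy hxy
    by_contra hxy'
    have h1 : v x i / φ (v x) = v y i / φ (v y) := congrArg Prod.fst hxy
    have h2 : v x j / φ (v x) = v y j / φ (v y) := congrArg Prod.snd hxy
    have hx0 := hφ x hx
    have hy0 := hφ y hy
    have h3 : φ (v y) • v x + (-φ (v x)) • v y = 0 := by
      apply hij
      · rw [div_eq_div_iff hx0 hy0] at h1
        simp only [Pi.add_apply, Pi.smul_apply, smul_eq_mul]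
        linear_combination h1
      · rw [div_eq_div_iff hx0 hy0] at h2
        simp only [Pi.add_apply, Pi.smul_apply, smul_eq_mul]
        linear_combination h2
      · simp only [map_add, map_smul, smul_eq_mul]
        ring
    exact hy0 (pair_dep_false hg hrep hx hy hxy' h3).1
  set S : Finset (F × F) := (hfin.toFinset).image c with hS
  have hScard : S.card = M.E.ncard := by
    rw [hS, Finset.card_image_of_injOn, ← Set.ncard_eq_toFinset_card _ hfin]
    intro x hx y hy hxy
    simp only [Finite.coe_toFinset] at hx hy
    exact hcinj hx hy hxy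
  have hb : S.card ≤ 8 := by
    apply tangency_bound hF
    intro p hp
    rw [hS, Finset.mem_image] at hp
    obtain ⟨e, he, rfl⟩ := hp
    rw [Finite.mem_toFinset] at he
    by_contra hcon
    push Not at hcon
    have hcon' : ∀ d : Option F, ∃ x ∈ M.E, idx d (c x) = idx d (c e) ∧ c x ≠ c e := by
      intro d
      obtain ⟨p', hp', h1, h2⟩ := hcon d
      rw [hS, Finset.mem_image] at hp'
      obtain ⟨x, hx, rfl⟩ := hp'
      rw [Finite.mem_toFinset] at hx
      exact ⟨x, hx, h1, h2⟩
    choose x hxE hxidx hxne using hcon'
    have hxe : ∀ d, x d ≠ e := fun d h => hxne d (by rw [h])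
    have hxinj : Function.Injective x := by
      intro d d' hdd
      by_contra hne'
      apply hxne d
      apply idx_two hne' (hxidx d)
      rw [hdd]
      exact hxidx d'
    -- the minor
    set N : Matroid α := M ／ {e} ＼ (M.E \ range x) with hN
    have hNE : N.E = range x := by
      rw [hN, Matroid.delete_ground, Matroid.contract_ground]
      ext y
      constructor
      · rintro ⟨⟨hy1, hy2⟩, hy3⟩
        by_contra hy4
        exact hy3 ⟨hy1, hy4⟩
      · rintro ⟨d, rfl⟩
        exact ⟨⟨hxE d, hxe d⟩, fun h => h.2 ⟨d, rfl⟩⟩
    have heI : M.Indep {e} := by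
      have := hg e he e he
      simpa using this
    have hbas : M.IsBasis {e} {e} := heI.isBasis_self
    have hNind : ∀ I : Set α, N.Indep I → M.Indep (I ∪ {e}) ∧ Disjoint {e} I := by
      intro I hI
      rw [hN, Matroid.delete_indep_iff, hbas.contract_indep_iff] at hI
      exact hI.1
    have hNg : IsGeometry N := by
      intro y hy y' hy'
      rw [hNE] at hy hy'
      obtain ⟨d, rfl⟩ := hy
      obtain ⟨d', rfl⟩ := hy'
      rw [hN, Matroid.delete_indep_iff, hbas.contract_indep_iff]
      refine ⟨⟨?_, ?_⟩, ?_⟩
      · by_cases hdd : d = d'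
        · subst hdd
          have h1 := hg (x d) (hxE d) e he
          have e1 : ({x d, x d} : Set α) ∪ {e} = {x d, e} := by
            ext z
            simp only [mem_union, mem_insert_iff, mem_singleton_iff]
            tauto
          rw [e1]; exact h1
        · have hpair : M.Indep {x d', e} := hg (x d') (hxE d') e he
          have hsub : ({x d', e} : Set α) ⊆ M.E := by
            intro z hz; rcases hz with rfl | rfl
            · exact hxE d'
            · exact he
          have hlp : LinearIndepOn F v {x d', e} := (hv _ hsub).1 hpair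
          have e1 : ({x d, x d'} : Set α) ∪ {e} = insert (x d) {x d', e} := by
            ext z
            simp only [mem_union, mem_insert_iff, mem_singleton_iff]
            tauto
          rw [e1]
          have hsub2 : insert (x d) ({x d', e} : Set α) ⊆ M.E := insert_subset (hxE d) hsub
          rw [hv _ hsub2]
          apply hlp.insert
          intro hmem
          rw [image_pair, Submodule.mem_span_pair] at hmem
          obtain ⟨b, g, hbg⟩ := hmem
          -- b • v (x d') + g • v e = v (x d)
          have hφe := congrArg φ hbg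
          simp only [map_add, map_smul, smul_eq_mul] at hφe
          have hi := congrFun hbg i
          have hj := congrFun hbg j
          simp only [Pi.add_apply, Pi.smul_apply, smul_eq_mul] at hi hj
          have n1 := hφ (x d) (hxE d)
          have n2 := hφ (x d') (hxE d')
          have n3 := hφ e he
          have c1 : v (x d) i = (c (x d)).1 * φ (v (x d)) := by
            simp only [hc]; field_simp
          have c2 : v (x d') i = (c (x d')).1 * φ (v (x d')) := by
            simp only [hc]; field_simp
          have c3 : v e i = (c e).1 * φ (v e) := by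
            simp only [hc]; field_simp
          have c4 : v (x d) j = (c (x d)).2 * φ (v (x d)) := by
            simp only [hc]; field_simp
          have c5 : v (x d') j = (c (x d')).2 * φ (v (x d')) := by
            simp only [hc]; field_simp
          have c6 : v e j = (c e).2 * φ (v e) := by
            simp only [hc]; field_simp
          have hidx := hxidx d
          have hkey : b * φ (v (x d')) * (idx d (c (x d')) - idx d (c e)) = 0 := by
            cases d with
            | none =>
              simp only [idx] at hidx ⊢
              rw [c1, c2, c3, hidx] at hi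
              linear_combination hi - (c e).1 * hφe
            | some m =>
              simp only [idx] at hidx ⊢
              rw [c1, c2, c3] at hi
              rw [c4, c5, c6] at hj
              linear_combination hj - m * hi - ((c e).2 - m * (c e).1) * hφe +
                φ (v (x (some m))) * hidx
          rcases mul_eq_zero.mp hkey with h | h
          · have hb0 : b = 0 := (mul_eq_zero.mp h).resolve_right n2
            rw [hb0, zero_smul, zero_add] at hbg
            have h4 : (-g) • v e + (1 : F) • v (x d) = 0 := by
              rw [← hbg, one_smul, neg_smul, neg_add_cancel]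
            have h5 := pair_dep_false hg hrep he (hxE d) (fun h => hxe d h.symm) h4
            exact one_ne_zero h5.2
          · apply hxne d'
            exact idx_two hdd (sub_eq_zero.mp h) (hxidx d')
      · rw [disjoint_left]
        intro z hz hz'
        rw [mem_singleton_iff] at hz
        subst hz
        rcases hz' with h | h
        · exact hxe d h.symm
        · exact hxe d' h.symm
      · rw [disjoint_left]
        intro z hz hz'
        apply hz'.2
        rcases hz with rfl | rfl
        · exact ⟨d, rfl⟩
        · exact ⟨d', rfl⟩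
    have hNr : N.eRank ≤ 2 := by
      obtain ⟨B, hB⟩ := N.exists_isBase
      rw [← hB.encard_eq_eRank]
      obtain ⟨h1, h2⟩ := hNind B hB.indep
      have h3 := h1.encard_le_eRank
      rw [hr, Set.encard_union_eq h2.symm, Set.encard_singleton] at h3
      have h4 : B.encard + 1 ≤ 2 + 1 := by
        have : (3 : ℕ∞) = 2 + 1 := by norm_num
        rw [← this]; exact h3
      exact (ENat.add_le_add_iff_right (by simp)).mp h4
    have hNc : CritLE F 1 N := hcrit N (Matroid.contract_delete_isMinor M {e} _) hNg
    exact rank_two_bound hF hNg hNc hNr x (fun d => by rw [hNE]; exact ⟨d, rfl⟩) hxinj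
  rw [hScard] at hb
  rw [← hfin.cast_ncard_eq]
  exact_mod_cast hb

end Pool.Agent.Blocks
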